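import Pool.Agent.W601.RP.Stm2

open Filter Topology

namespace Pool.Agent.W490.RP

open Pool.Agent.W601.RP

noncomputable section

theorem N_eq (t : ℕ) : ((N t : ℕ) : ℤ) = 2 * ((t + 1).factorial : ℤ) := by
  unfold N; push_cast; ring

theorem N_pos (t : ℕ) : (0 : ℤ) < (N t : ℤ) := by
  rw [N_eq]
  have := Nat.factorial_pos (t + 1)
  positivity

/-- reduction of one coefficient -/
def rc (t : ℕ) (a : ℤ) : ℤ := toIocMod (N_pos t) (-((t + 1).factorial : ℤ)) a

theorem rc_range (t : ℕ) (a : ℤ) : -(N t : ℤ) < 2 * rc t a ∧ 2 * rc t a ≤ N t := by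
  have h := toIocMod_mem_Ioc (N_pos t) (-((t + 1).factorial : ℤ)) a
  have h1 := h.1
  have h2 := h.2
  change -((t + 1).factorial : ℤ) < rc t a at h1
  change rc t a ≤ _ at h2
  rw [N_eq] at h2 ⊢
  constructor <;> linarith

theorem rc_eq {t : ℕ} {a : ℤ} (h : -(N t : ℤ) < 2 * a ∧ 2 * a ≤ N t) : rc t a = a := by
  unfold rc
  rw [toIocMod_eq_self]
  obtain ⟨h1, h2⟩ := h
  rw [N_eq] at h1 h2 ⊢
  constructor <;> linarith

theorem rc_smul (t : ℕ) (a : ℤ) (y : TT) (hy : N t • y = 0) : rc t a • y = a • y := by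
  unfold rc toIocMod
  rw [sub_smul, smul_eq_mul, mul_smul, natCast_zsmul, hy, smul_zero, sub_zero]

/-- reduction -/
def rd (k : ℕ →₀ ℤ) : ℕ →₀ ℤ :=
  Finsupp.onFinset k.support (fun t => rc t (k t)) (by
    intro t ht
    rw [Finsupp.mem_support_iff]
    intro h0
    apply ht
    rw [h0]
    apply rc_eq
    have := N_pos t
    constructor <;> linarith)

theorem rd_apply (k : ℕ →₀ ℤ) (t : ℕ) : rd k t = rc t (k t) := rfl

theorem rd_red (k : ℕ →₀ ℤ) : Red (rd k) := fun t => rc_range t (k t)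

theorem pr_rd (k : ℕ →₀ ℤ) (h : ℕ → TT) (hh : ∀ t, N t • h t = 0) : pr (rd k) h = pr k h := by
  unfold pr
  rw [Finsupp.sum_of_support_subset (rd k) (s := k.support) Finsupp.support_onFinset_subset _
    (fun t _ => zero_smul ℤ (h t))]
  unfold Finsupp.sum
  refine Finset.sum_congr rfl fun t _ => ?_
  rw [rd_apply, rc_smul _ _ _ (hh t)]

theorem phi_add (hR : S_RED) (k k' : ℕ →₀ ℤ) : phi (k + k') = phi k + phi k' := by
  funext h
  exact hR.2.1 k k' h

theorem coef (hG : S_GS) (hR : S_RED) (hN : S_NULL) {k1 k0 d : ℕ →₀ ℤ} (h1 : Red k1)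
    (hd : Red d) (h : phi k1 = phi k0 + phi d) {t : ℕ} (ht : t ∉ k0.support) :
    k1 t = d t := by
  have e1 : phi k1 = phi (rd (k0 + d)) := by
    rw [h, ← phi_add hR]
    funext x
    exact (pr_rd _ _ (fun t => hN.2 x x.2 t)).symm
  have e2 := hG.2.2.1 _ _ h1 (rd_red _) e1
  rw [e2, rd_apply, Finsupp.add_apply, Finsupp.notMem_support_iff.mp ht, zero_add]
  exact rc_eq (hd t)

theorem seq (hG : S_GS) (hS : S_SEQ) (K : Set ↥GS) (hK : IsCompact K) (z : ℕ → ↥GS)
    (hz : ∀ n, z n ∈ K) :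
    ∃ a ∈ K, ∃ φ : ℕ → ℕ, StrictMono φ ∧ Tendsto (fun n => z (φ n)) atTop (𝓝 a) := by
  have hc : Countable ↥GS := hG.2.2.2.1
  have sep : ∀ p : {p : ↥GS × ↥GS // p.1 ≠ p.2}, ∃ h : ↥H,
      (p.1.1 : ↥H → TT) h ≠ (p.1.2 : ↥H → TT) h := by
    intro p
    by_contra hcon
    push Not at hcon
    exact p.2 (Subtype.ext (funext hcon))
  choose hh hhne using sep
  have hm : TopologicalSpace.MetrizableSpace ({p : ↥GS × ↥GS // p.1 ≠ p.2} → TT) :=
    inferInstance
  refine hS ↥GS ({p : ↥GS × ↥GS // p.1 ≠ p.2} → TT) (fun g p => (g : ↥H → TT) (hh p)) ?_ ?_ K hK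
    z hz
  · exact continuous_pi fun p => (continuous_apply (hh p)).comp continuous_subtype_val
  · intro g g' hgg
    by_contra hne
    exact hhne ⟨(g, g'), hne⟩ (congrFun hgg ⟨(g, g'), hne⟩)

theorem cpt : S_SUPP → S_COEF → S_ANT → S_DICH → S_GS → S_SEQ → S_RED → S_NULL → S_CPT := by
  intro hSU hCO hAN hDI hG hS hR hN K hK
  choose kk hkk using hG.1
  have null : ∀ (z : ℕ → ↥GS) (a : ↥GS), Tendsto z atTop (𝓝 a) →
      NullS (fun j => kk (z j - a)) := by
    intro z a hz h hh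
    have e1 : ∀ j, pr (kk (z j - a)) h = (z j : ↥H → TT) ⟨h, hh⟩ - (a : ↥H → TT) ⟨h, hh⟩ := by
      intro j
      have e2 := congrFun (hkk (z j - a)).2 ⟨h, hh⟩
      exact e2.symm
    simp only [e1]
    have e3 : Tendsto (fun j => (z j : ↥H → TT) ⟨h, hh⟩) atTop (𝓝 ((a : ↥H → TT) ⟨h, hh⟩)) :=
      (((continuous_apply (⟨h, hh⟩ : ↥H)).comp continuous_subtype_val).tendsto a).comp hz
    have e4 := e3.sub_const ((a : ↥H → TT) ⟨h, hh⟩)
    rwa [sub_self] at e4
  have cf : ∀ (z a : ↥GS) (t : ℕ), t ∉ (kk a).support → kk z t = kk (z - a) t := by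
    intro z a t ht
    refine coef hG hR hN (hkk z).1 (hkk (z - a)).1 ?_ ht
    rw [← (hkk z).2, ← (hkk a).2, ← (hkk (z - a)).2]
    show (z : ↥H → TT) = (a : ↥H → TT) + ((z : ↥H → TT) - (a : ↥H → TT))
    abel
  have hA : FinCh {t | ∃ g ∈ K, t ∈ (kk g).support} := by
    apply hDI
    intro E hE hEi
    by_contra hcon
    push Not at hcon
    have h1 : ∀ i, ∃ g ∈ K, (hEi.natEmbedding E i : ℕ) ∈ (kk g).support := fun i =>
      hE (hEi.natEmbedding E i).2
    choose z hzK hze using h1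
    obtain ⟨a, haK, φ, hφ, hza⟩ := seq hG hS K hK z hzK
    have hn := null _ a hza
    obtain ⟨L, hL⟩ := hSU _ (fun j => (hkk _).1) hn
    have einj : Function.Injective (fun i => ((hEi.natEmbedding E (φ i) : E) : ℕ)) := by
      intro i j hij
      exact hφ.injective ((hEi.natEmbedding E).injective (Subtype.ext hij))
    have hfin : {i | ((hEi.natEmbedding E (φ i) : E) : ℕ) ∈ (kk a).support}.Finite :=
      Set.Finite.preimage einj.injOn (Finset.finite_toSet (kk a).support)
    obtain ⟨i0, hi0⟩ := hfin.bddAbove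
    have hi1 : ∀ i, ((hEi.natEmbedding E (φ (i + (i0 + 1))) : E) : ℕ) ∉ (kk a).support := by
      intro i hi
      have := hi0 hi
      omega
    refine hAN (fun i => kk (z (φ (i + (i0 + 1))) - a)) (fun i => (hkk _).1) ?_
      ⟨L, fun j => hL (j + (i0 + 1))⟩
      (fun i => ((hEi.natEmbedding E (φ (i + (i0 + 1))) : E) : ℕ)) ?_ ?_ ?_
    · intro h hh
      exact (hn h hh).comp (tendsto_add_atTop_nat (i0 + 1))
    · intro i j hij
      have := einj hij
      omega
    · intro i j hij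
      refine hcon _ (Subtype.mem _) _ (Subtype.mem _) ?_
      intro he
      apply hij
      have := einj he
      omega
    · intro i
      show _ ∈ (kk (z (φ (i + (i0 + 1))) - a)).support
      rw [Finsupp.mem_support_iff, ← cf _ a _ (hi1 i), ← Finsupp.mem_support_iff]
      exact hze _
  have hC : ∃ C : ℝ, ∀ g ∈ K, (∑ t ∈ (kk g).support, |((kk g) t : ℝ)|) ≤ C := by
    by_contra hcon
    push Not at hcon
    have h1 : ∀ n : ℕ, ∃ g ∈ K, (n : ℝ) < ∑ t ∈ (kk g).support, |((kk g) t : ℝ)| :=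
      fun n => hcon n
    choose z hzK hzs using h1
    obtain ⟨a, haK, φ, hφ, hza⟩ := seq hG hS K hK z hzK
    have hn := null _ a hza
    obtain ⟨L, hL⟩ := hSU _ (fun j => (hkk _).1) hn
    obtain ⟨C, hC⟩ := hCO _ (fun j => (hkk _).1) hn ⟨L, hL⟩
    have hC0 : (0 : ℝ) ≤ C := by
      have := (abs_nonneg _).trans (hC 0 0)
      exact_mod_cast this
    have bound : ∀ n, ∑ t ∈ (kk (z (φ n))).support, |((kk (z (φ n))) t : ℝ)| ≤
        L * C + ∑ t ∈ (kk a).support, (N t : ℝ) := by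
      intro n
      classical
      rw [← Finset.sum_filter_add_sum_filter_not _ (fun t => t ∈ (kk a).support), add_comm]
      refine add_le_add ?_ ?_
      · have s1 : (kk (z (φ n))).support.filter (fun t => t ∉ (kk a).support) ⊆
            (kk (z (φ n) - a)).support := by
          intro t ht
          obtain ⟨h2, h3⟩ := Finset.mem_filter.mp ht
          rw [Finsupp.mem_support_iff, ← cf _ a _ h3, ← Finsupp.mem_support_iff]
          exact h2
        have s2 := (Finset.card_le_card s1).trans (hL n)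
        refine (Finset.sum_le_card_nsmul _ _ (C : ℝ) ?_).trans ?_
        · intro t ht
          rw [cf _ a _ (Finset.mem_filter.mp ht).2]
          exact_mod_cast hC n t
        · rw [nsmul_eq_mul]
          gcongr
      · refine (Finset.sum_le_sum (g := fun t => (N t : ℝ)) ?_).trans
          (Finset.sum_le_sum_of_subset_of_nonneg ?_ ?_)
        · intro t _
          have h2 := (hkk (z (φ n))).1 t
          have h3 : |(kk (z (φ n))) t| ≤ (N t : ℤ) := by
            rw [abs_le]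
            have := N_pos t
            constructor <;> linarith [h2.1, h2.2]
          exact_mod_cast h3
        · intro t ht
          exact (Finset.mem_filter.mp ht).2
        · intro t _ _
          positivity
    obtain ⟨n, hn'⟩ := exists_nat_gt (L * C + ∑ t ∈ (kk a).support, (N t : ℝ))
    have h2 := hzs (φ n)
    have h3 : (n : ℝ) ≤ (φ n : ℝ) := by exact_mod_cast hφ.id_le n
    linarith [bound n]
  obtain ⟨C, hC⟩ := hC
  refine ⟨_, max C 1, hA, lt_of_lt_of_le one_pos (le_max_right _ _), fun g hg =>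
    ⟨kk g, (hkk g).2, fun t ht => ⟨g, hg, ht⟩, (hC g hg).trans (le_max_left _ _)⟩⟩

end

end Pool.Agent.W490.RP
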